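import Pool.Agent.H95.FC.Targets

/-!
# Board fmx_modules, row AVNT: the sublattices of a line, `n` not prime to `f`
-/

set_option autoImplicit false

open MeasureTheory Set Filter NumberField
open scoped Real nonZeroDivisors Matrix MatrixGroups

namespace Pool.Agent.H56.FC

open Pool.Agent.H31.CN Pool.Agent.H89.FM Pool.Agent.H61.FM Pool.Agent.H89.FC Pool.Agent.H95.FC

theorem vnt_aux (hFLF : Pool.Agent.H95.FC.T_FLF) (n f p : ℕ) (Q : QF) (V V' W : ℤ × ℤ)
    (hf : 1 ≤ f) (hp : p.Prime) (hpn : p ∣ n) (hpf : p ∣ f) (hU : Uv f Q V) (hd : det V W = 1)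
    (hV : ((f / p : ℕ) : ℤ) ∣ det V V') (L : AddSubgroup (ℤ × ℤ)) (hL : L ≤ Lw f V)
    (hD : Dv n L Q) : L ≤ Lw f V' := by
  obtain ⟨h1, _, _, _, h5⟩ := hFLF f Q V W hf hd
  intro v hv
  have hfv : (f : ℤ) ∣ det V v := hL hv
  obtain ⟨⟨x, y⟩, hxy⟩ := (h5 v).1 hfv
  have hval : (n : ℤ) ∣ val Q v := hD v hv
  have e1 : val Q v = x ^ 2 * val Q V + (f : ℤ) * (x * y * bl Q V W + f * y ^ 2 * val Q W) := by
    rw [← hxy, ← h1]
    simp only [val, fl]
    ring
  have hpn' : (p : ℤ) ∣ (n : ℤ) := by exact_mod_cast hpn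
  have hpf' : (p : ℤ) ∣ (f : ℤ) := by exact_mod_cast hpf
  have h6 : (p : ℤ) ∣ x ^ 2 * val Q V := by
    have h7 : (p : ℤ) ∣ val Q v := hpn'.trans hval
    rw [e1] at h7
    exact (dvd_add_left (Dvd.dvd.mul_right hpf' _)).1 h7
  have hcop : IsCoprime (val Q V) (p : ℤ) := by
    obtain ⟨c, hc⟩ := hpf'
    have h8 : IsCoprime (val Q V) (f : ℤ) := hU
    rw [hc] at h8
    exact IsCoprime.of_mul_right_left h8
  have h9 : (p : ℤ) ∣ x ^ 2 := hcop.symm.dvd_of_dvd_mul_right h6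
  have h10 : (p : ℤ) ∣ x := (Nat.prime_iff_prime_int.1 hp).dvd_of_dvd_pow h9
  have hfp : (f : ℤ) = (p : ℤ) * ((f / p : ℕ) : ℤ) := by
    have h11 : p * (f / p) = f := Nat.mul_div_cancel' hpf
    exact_mod_cast h11.symm
  have h12 : det V' V = - det V V' := by
    simp only [det]
    ring
  have h13 : (f : ℤ) ∣ x * det V' V := by
    rw [hfp, h12]
    exact mul_dvd_mul h10 ((dvd_neg).2 hV)
  have h14 : det V' v = x * det V' V + (f : ℤ) * (y * det V' W) := by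
    rw [← hxy]
    simp only [det, io, AddMonoidHom.coe_mk, ZeroHom.coe_mk]
    ring
  show (f : ℤ) ∣ det V' v
  rw [h14]
  exact dvd_add h13 (dvd_mul_right _ _)

theorem pf_VNT (hFLF : Pool.Agent.H95.FC.T_FLF) : Pool.Agent.H95.FC.T_VNT := by
  intro n f p Q V V' W W' hf hp hpn hpf hU hU' hd hd' hV
  classical
  have hV' : ((f / p : ℕ) : ℤ) ∣ det V' V := by
    have h12 : det V' V = - det V V' := by
      simp only [det]
      ring
    rw [h12]
    exact (dvd_neg).2 hV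
  unfold Tn
  refine Finset.filter_congr fun L _ => ?_
  constructor
  · rintro ⟨h1, h2⟩
    exact ⟨vnt_aux hFLF n f p Q V V' W hf hp hpn hpf hU hd hV L h1 h2, h2⟩
  · rintro ⟨h1, h2⟩
    exact ⟨vnt_aux hFLF n f p Q V' V W' hf hp hpn hpf hU' hd' hV' L h1 h2, h2⟩

end Pool.Agent.H56.FC
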