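import Pool.Agent.H89.FC.TargetsN
import Pool.Agent.H83.FM.MOT

/-!
# NMT: the second moment with partial sums of any length, for the complete family
-/

set_option autoImplicit false

open MeasureTheory Set Filter NumberField
open scoped Real nonZeroDivisors
open Pool.Agent.H31.CN Pool.Agent.H89.FM Pool.Agent.H61.FM Pool.Agent.H89.FC

namespace Pool.Agent.H56.FC

/-- the trivial bound for the sum -/
theorem trivc (C2 C3 C4 : ℝ) (k3 : ℕ) (hC2 : 0 < C2) (hC3 : 0 < C3)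
    (h2 : ∀ (K : Type) [Field K] [NumberField K] (σ : K →+* ℂ) (D f : ℕ) (m : ℤ)
      (ψ : Ideal (𝓞 K) → ℂ), IQ K D → RCh K σ f m ψ →
      Measurable (Sc ψ) ∧ ∀ x : ℝ, 1 ≤ x → ‖Sc ψ x‖ ≤ C2 * x ^ 2)
    (h3 : ∀ (K : Type) [Field K] [NumberField K]
      (σ : K →+* ℂ) (D f : ℕ) (m : ℤ) (ψ : Ideal (𝓞 K) → ℂ) (F : ℂ → ℂ),
      IQ K D → RCh K σ f m ψ → IsL ψ F → ∀ s : ℂ,
      |s.re - 1 / 2| ≤ 1 / 8 →
      ‖F s‖ ≤ C3 * (1 + |s.im| + |(m : ℝ)|) ^ k3 * ((D : ℝ) * (f : ℝ) ^ 2) ^ 2)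
    (h4 : ∀ (m : ℤ) (X : ℝ) (K : ℕ → Type) [∀ D, Field (K D)] [∀ D, NumberField (K D)]
      (σ : ∀ D, K D →+* ℂ) (S : Finset (IX K)) (F : IX K → ℂ → ℂ), 1 ≤ X → Fam K σ S F 0 X →
      (∀ y ∈ S, y.2.2.1 = m) → (S.card : ℝ) ≤ C4 * X ^ 3)
    (m : ℤ) (s : ℂ) (hs : |s.re - 1 / 2| ≤ 1 / 8) (X x : ℝ) (K : ℕ → Type) [∀ D, Field (K D)]
    [∀ D, NumberField (K D)] (σ : ∀ D, K D →+* ℂ) (S : Finset (IX K)) (F : IX K → ℂ → ℂ)
    (hX : 1 ≤ X) (hx : 1 ≤ x) (hF : Fam K σ S F (X / 4) X) (hm : ∀ y ∈ S, y.2.2.1 = m) :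
    ∑ y ∈ S, ‖Sc y.2.2.2 x‖ ^ 2 * ‖F y s‖ ^ 2 ≤
      C4 * C2 ^ 2 * C3 ^ 2 * (1 + |s.im| + |(m : ℝ)|) ^ (2 * k3) * X ^ 7 * x ^ 4 := by
  have hX0 : 0 < X := by linarith
  have hx0 : 0 < x := by linarith
  set T := 1 + |s.im| + |(m : ℝ)| with hT
  have hT1 : 1 ≤ T := by
    have h5 := abs_nonneg s.im
    have h6 := abs_nonneg (m : ℝ)
    linarith
  have hF0 : Fam K σ S F 0 X :=
    ⟨fun y hy => ⟨by positivity, (hF.q y hy).2⟩, hF.iq, hF.ch, hF.lf⟩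
  have hcard := h4 m X K σ S F hX hF0 hm
  have hterm : ∀ y ∈ S, ‖Sc y.2.2.2 x‖ ^ 2 * ‖F y s‖ ^ 2 ≤
      (C2 * x ^ 2) ^ 2 * (C3 * T ^ k3 * X ^ 2) ^ 2 := by
    intro y hy
    have a1 := (h2 (K y.1) (σ y.1) y.1 y.2.1 y.2.2.1 y.2.2.2 (hF.iq y hy) (hF.ch y hy)).2 x hx
    have a2 := h3 (K y.1) (σ y.1) y.1 y.2.1 y.2.2.1 y.2.2.2 (F y) (hF.iq y hy) (hF.ch y hy)
      (hF.lf y hy) s hs
    rw [hm y hy] at a2
    have a5 : (0 : ℝ) ≤ (y.1 : ℝ) * (y.2.1 : ℝ) ^ 2 := by positivity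
    have a3 : C3 * T ^ k3 * ((y.1 : ℝ) * (y.2.1 : ℝ) ^ 2) ^ 2 ≤ C3 * T ^ k3 * X ^ 2 := by
      have a6 := (hF.q y hy).2
      gcongr
    have a4 : ‖F y s‖ ≤ C3 * T ^ k3 * X ^ 2 := le_trans a2 a3
    gcongr
  have hsum2 := Finset.sum_le_card_nsmul S _ _ hterm
  rw [nsmul_eq_mul] at hsum2
  refine le_trans hsum2 ?_
  calc (S.card : ℝ) * ((C2 * x ^ 2) ^ 2 * (C3 * T ^ k3 * X ^ 2) ^ 2)
      ≤ (C4 * X ^ 3) * ((C2 * x ^ 2) ^ 2 * (C3 * T ^ k3 * X ^ 2) ^ 2) := by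
        apply mul_le_mul_of_nonneg_right hcard (by positivity)
    _ = C4 * C2 ^ 2 * C3 ^ 2 * T ^ (2 * k3) * X ^ 7 * x ^ 4 := by
        rw [mul_comm 2 k3, pow_mul]
        ring

theorem pf_MOTc (hMOS : T_MOSc) (hSPT : T_SPTc) (hTRB : T_TRBc) (hCRD : T_CRDc) : T_MOTc := by
  intro ε hε
  obtain ⟨κ, hκ0, hκ1, δ, hδ0, hδ1, C1, k1, hC1, h1⟩ := hMOS ε hε
  obtain ⟨C2, hC2, h2⟩ := hSPT
  obtain ⟨C3, k3, hC3, h3⟩ := hTRB
  obtain ⟨C4, hC4, h4⟩ := hCRD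
  refine ⟨κ, hκ0, hκ1, ?_⟩
  intro c hc
  set B := ⌈36 / δ⌉₊ with hB
  have hBd : 36 / δ ≤ (B : ℝ) := Nat.le_ceil _
  set A := C4 * C2 ^ 2 * C3 ^ 2 with hA
  have hA0 : 0 < A := by positivity
  have hf : (0 : ℝ) < (Nat.factorial B : ℝ) := by exact_mod_cast Nat.factorial_pos B
  refine ⟨C1 + A * ((Nat.factorial B : ℝ) / c ^ B), k1 + (2 * k3 + B), by positivity, ?_⟩
  intro m s X x K _ _ σ S F hs hX hx hF hm
  set T := 1 + |s.im| + |(m : ℝ)| with hT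
  have hT1 : 1 ≤ T := by
    have h5 := abs_nonneg s.im
    have h6 := abs_nonneg (m : ℝ)
    linarith
  have hX0 : 0 < X := by linarith
  have hx0 : 0 < x := by linarith
  set E := X ^ (3 / 2 + ε) * x ^ (1 + ε) with hE
  have hE1 : 1 ≤ E := by
    have a1 : 1 ≤ X ^ (3 / 2 + ε) := Real.one_le_rpow hX (by linarith)
    have a2 : 1 ≤ x ^ (1 + ε) := Real.one_le_rpow hx (by linarith)
    nlinarith
  have hnn : 0 ≤ ∑ y ∈ S, ‖Sc y.2.2.2 x‖ ^ 2 * ‖F y s‖ ^ 2 :=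
    Finset.sum_nonneg (fun y _ => by positivity)
  have hfin : (C1 + A * ((Nat.factorial B : ℝ) / c ^ B)) * T ^ (k1 + (2 * k3 + B)) *
      X ^ (3 / 2 + ε) * x ^ (1 + ε) =
      C1 * T ^ (k1 + (2 * k3 + B)) * E +
      A * ((Nat.factorial B : ℝ) / c ^ B) * T ^ (k1 + (2 * k3 + B)) * E := by
    rw [hE]
    ring
  rw [hfin]
  by_cases hcase : x ≤ X ^ ((1 + δ) / 2)
  · have b1 := h1 m s X x K σ S F hs hX hx hcase hF hm
    have b2 : Real.exp (-(c * x / (Real.sqrt X * T))) ≤ 1 := by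
      rw [Real.exp_le_one_iff]
      have : 0 ≤ c * x / (Real.sqrt X * T) := by positivity
      linarith
    calc (∑ y ∈ S, ‖Sc y.2.2.2 x‖ ^ 2 * ‖F y s‖ ^ 2) *
          Real.exp (-(c * x / (Real.sqrt X * T)))
        ≤ (∑ y ∈ S, ‖Sc y.2.2.2 x‖ ^ 2 * ‖F y s‖ ^ 2) * 1 := by
          apply mul_le_mul_of_nonneg_left b2 hnn
      _ ≤ C1 * T ^ k1 * X ^ (3 / 2 + ε) * x ^ (1 + ε) := by
          rw [mul_one]
          exact b1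
      _ = C1 * T ^ k1 * E := by
          rw [hE]
          ring
      _ ≤ C1 * T ^ (k1 + (2 * k3 + B)) * E := by
          have : T ^ k1 ≤ T ^ (k1 + (2 * k3 + B)) := pow_le_pow_right₀ hT1 (by omega)
          gcongr
      _ ≤ _ := by
          have : 0 ≤ A * ((Nat.factorial B : ℝ) / c ^ B) * T ^ (k1 + (2 * k3 + B)) * E := by
            positivity
          linarith
  · have hxX : X ^ ((1 + δ) / 2) < x := not_le.mp hcase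
    obtain ⟨hXx, hexp⟩ := Pool.Agent.H83.FM.MOTX.exp_small δ c T X x hδ0 hδ1 hc hT1 hX hx hxX B hBd
    have b3 := trivc C2 C3 C4 k3 hC2 hC3 h2 h3 h4 m s (le_trans hs hκ1) X x K σ S F hX hx hF hm
    have b4 : C4 * C2 ^ 2 * C3 ^ 2 * T ^ (2 * k3) * X ^ 7 * x ^ 4 ≤ A * T ^ (2 * k3) * x ^ 18 := by
      have : X ^ 7 ≤ (x ^ 2) ^ 7 := by gcongr
      calc C4 * C2 ^ 2 * C3 ^ 2 * T ^ (2 * k3) * X ^ 7 * x ^ 4
          = A * T ^ (2 * k3) * X ^ 7 * x ^ 4 := by rw [hA]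
        _ ≤ A * T ^ (2 * k3) * (x ^ 2) ^ 7 * x ^ 4 := by gcongr
        _ = A * T ^ (2 * k3) * x ^ 18 := by ring
    calc (∑ y ∈ S, ‖Sc y.2.2.2 x‖ ^ 2 * ‖F y s‖ ^ 2) *
          Real.exp (-(c * x / (Real.sqrt X * T)))
        ≤ (A * T ^ (2 * k3) * x ^ 18) * Real.exp (-(c * x / (Real.sqrt X * T))) := by
          apply mul_le_mul_of_nonneg_right (le_trans b3 b4) (Real.exp_pos _).le
      _ = A * T ^ (2 * k3) * (x ^ 18 * Real.exp (-(c * x / (Real.sqrt X * T)))) := by ring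
      _ ≤ A * T ^ (2 * k3) * ((Nat.factorial B : ℝ) / c ^ B * T ^ B) := by
          apply mul_le_mul_of_nonneg_left hexp (by positivity)
      _ = A * ((Nat.factorial B : ℝ) / c ^ B) * T ^ (2 * k3 + B) * 1 := by
          rw [pow_add]
          ring
      _ ≤ A * ((Nat.factorial B : ℝ) / c ^ B) * T ^ (k1 + (2 * k3 + B)) * E := by
          have : T ^ (2 * k3 + B) ≤ T ^ (k1 + (2 * k3 + B)) := pow_le_pow_right₀ hT1 (by omega)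
          gcongr
      _ ≤ _ := by
          have : 0 ≤ C1 * T ^ (k1 + (2 * k3 + B)) * E := by positivity
          linarith

end Pool.Agent.H56.FC
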